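import Pool.Agent.HFC.Stmts

/-!
# Squad HFC, row ADH: the class `Kh K` is admissible
-/

set_option autoImplicit false

open scoped BigOperators

noncomputable section

namespace Pool.Agent.HFC.H29

open Pool.Agent.PSS Pool.Agent.PST Pool.Agent.PST.GU

theorem adh : AdhStmt := by
  intro hpq rsq K hK ℓ hℓ
  refine ⟨?_, ?_, ?_, ?_⟩
  · intro V _ E W h
    exact h.2.1
  · intro V _ E W h a _ w _
    rw [h.1]
    exact Subgroup.mem_top _
  · intro V V' _ _ E E' W π hq h
    obtain ⟨hW, hne, hab, C, V₀, h1, h2, h3, h4, h5⟩ := h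
    refine ⟨?_, ?_, ?_⟩
    · rw [hW]
      exact Subgroup.map_top_of_surjective _ hq.sur
    · intro hbot
      apply hne
      rw [Subgroup.map_eq_bot_iff] at hbot
      rw [eq_bot_iff]
      intro w hw
      have h6 := hbot hw
      rw [MonoidHom.mem_ker] at h6
      rw [Subgroup.mem_bot]
      exact π.injective (h6.trans (map_one π).symm)
    · refine hpq rsq K ℓ (hK ℓ hℓ) V V' E E' π.toMonoidHom hq hab C V₀ h1 h2 h3 h4 h5 ?_
      intro v hv
      rw [MonoidHom.mem_ker] at hv
      have h6 : v = 1 := π.injective (hv.trans (map_one π).symm)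
      rw [h6]
      exact one_mem C
  · intro V V' _ _ _ _ E E' W π _ _ _ hq h hker hne
    exfalso
    obtain ⟨v, hv⟩ := hne
    obtain ⟨u, rfl⟩ := hq.sur v
    apply hv
    have h6 : u ∈ π.ker := by
      rw [hker, h.1]
      exact Subgroup.mem_top _
    exact MonoidHom.mem_ker.1 h6

end Pool.Agent.HFC.H29
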