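import Pool.Agent.HFC.Stmts
import Pool.Agent.Helper44_PSS.CLN

/-!
# Squad HFC, row CLA: from the clean hypotheses to the class `KP`, for an arbitrary abelian subgroup
-/

set_option autoImplicit false

open scoped BigOperators

noncomputable section

namespace Pool.Agent.HFC.H29

open Pool.Agent.PSS Pool.Agent.PST Pool.Agent.PST.GU

theorem ne_bot_of {G : Type} [Group G] {U V : Subgroup G} (hUV : U ≤ V) (hU : U ≠ ⊥) :
    U.subgroupOf V ≠ ⊥ := by
  intro h1
  apply hU
  rw [eq_bot_iff]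
  intro u hu
  have h6 : (⟨u, hUV hu⟩ : V) ∈ U.subgroupOf V := Subgroup.mem_subgroupOf.2 hu
  rw [h1, Subgroup.mem_bot] at h6
  rw [Subgroup.mem_bot]
  exact congrArg Subtype.val h6

theorem cla : ClaStmt := by
  intro msu edf ℓ hℓ G _ _ T V hV hp hab E hcop hE W U h
  -- stable subgroups
  have hst : ∀ Z : Subgroup G, (∀ t ∈ T, ∀ z ∈ Z, t * z * t⁻¹ ∈ Z) →
      ∀ a ∈ E, ∀ z ∈ Z.subgroupOf V, a z ∈ Z.subgroupOf V := by
    intro Z hZ a ha z hz
    obtain ⟨t, ht, hta⟩ := hE a ha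
    rw [Subgroup.mem_subgroupOf, hta z]
    exact hZ t ht z (Subgroup.mem_subgroupOf.1 hz)
  -- commutators
  have hcm : ∀ a ∈ E, ∀ b ∈ E, ∀ v : V, a (b v) * (b (a v))⁻¹ ∈ W.subgroupOf V := by
    intro a ha b hb v
    obtain ⟨s, hs, ea⟩ := hE a ha
    obtain ⟨t, ht, eb⟩ := hE b hb
    rw [Subgroup.mem_subgroupOf]
    have h1 := h.cm s hs t ht ((b (a v) : V) : G) (b (a v)).2
    have h2 : s * t * s⁻¹ * t⁻¹ * ((b (a v) : V) : G) * (s * t * s⁻¹ * t⁻¹)⁻¹ *
        ((b (a v) : V) : G)⁻¹ = ((a (b v) * (b (a v))⁻¹ : V) : G) := by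
      rw [Subgroup.coe_mul, Subgroup.coe_inv, ea (b v), eb v, eb (a v), ea v]
      group
    rw [h2] at h1
    exact h1
  by_cases hU : U = ⊥
  · -- `W = 1`
    have hW : W = ⊥ := h.nt hU
    have hEc : ∀ a ∈ E, ∀ b ∈ E, ∀ v : V, a (b v) = b (a v) := by
      intro a ha b hb v
      have h1 := hcm a ha b hb v
      rw [hW, Subgroup.bot_subgroupOf, Subgroup.mem_bot] at h1
      exact mul_inv_eq_one.1 h1
    have hne : ∃ v : V, v ≠ 1 := by
      by_contra hc
      push Not at hc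
      apply hV
      rw [eq_bot_iff]
      intro x hx
      have h1 := hc ⟨x, hx⟩
      rw [Subgroup.mem_bot]
      exact congrArg Subtype.val h1
    obtain ⟨W', h1⟩ := msu V E hne hEc
    refine ⟨W', hab, ?_, W', ⊥, h1⟩
    intro a ha b hb v
    rw [hEc a ha b hb v, mul_inv_cancel]
    exact one_mem W'
  · have hUV : U ≤ V := h.uw.trans h.wd
    obtain ⟨U', X', x1, x2, x3, x4, x5, x6⟩ := Pool.Agent.PSS.H44.relEdf edf Fact.out hp hab
      E hcop (U.subgroupOf V) (W.subgroupOf V)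
      (fun u hu => Subgroup.mem_subgroupOf.2 (h.uw (Subgroup.mem_subgroupOf.1 hu)))
      (ne_bot_of hUV hU) (hst U h.su) (hst W h.sw)
      (by
        intro a ha u hu hu1 hfix w hw
        obtain ⟨t, ht, hta⟩ := hE a ha
        have h7 : t * (u : G) * t⁻¹ = u := by
          rw [← hta u, hfix]
        have h8 := h.fr t ht u (Subgroup.mem_subgroupOf.1 hu)
          (fun h => hu1 (Subtype.ext h)) (mul_inv_eq_iff_eq_mul.1 h7)
        apply Subtype.ext
        rw [hta w]
        have h9 : (w : G) * t = t * w :=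
          (Subgroup.mem_centralizer_iff.1 h8) w (Subgroup.mem_subgroupOf.1 hw)
        rw [← h9, mul_inv_cancel_right])
    exact ⟨W.subgroupOf V, hab, hcm, U', X',
      { ux := x1
        uw := x2
        nt := x3
        su := x4
        sx := x5
        fr := x6 }⟩

end Pool.Agent.HFC.H29
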